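import Pool.Agent.D0H93.AD.Main

/-!
# MP_a8f336_ag: the approximation degree of abstract smoothings

`k` is algebraically closed, `A` is a finite `k`-algebra, `d = dim_k A`. The definitions
(`AbstractSmoothing`, `IsSmoothable`, `ad`, `AbstractSmoothing.IsCompletelySplit`,
`AbstractSmoothing.approximationDegree`) are those of the problem and are in
`Pool.Agent.D0H93.AD.Defs`.

If `A` is smoothable, then it has a completely split abstract smoothing of approximation degree
`0`. In fact every abstract smoothing `𝒜` of `A` has approximation degree `0`: there is a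
`k[[t]]`-basis of `𝒜` in which every structure constant is a unit of `k[[t]]`. This answers
Q1 (bound `d`) and Q2 (bound `P(d)`) positively.
-/

set_option autoImplicit false

universe u

namespace Pool.Agent.Results.MP_a8f336_ag.ApproximationDegreeZero

open Module Pool.Agent.D0H93.AD

theorem result (k : Type u) [Field k] [IsAlgClosed k] (A : Type u) [CommRing A] [Algebra k A]
    [Module.Finite k A] (hA : IsSmoothable k A) :
    (∃ S : AbstractSmoothing k A, S.IsCompletelySplit ∧ S.approximationDegree = 0) ∧
    ∀ S : AbstractSmoothing k A, S.approximationDegree = 0 ∧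
      ∃ e : Basis (Fin (finrank k A)) (PowerSeries k) S.carrier,
        ad e = 0 ∧ ∀ i j l, IsUnit (e.repr (e i * e j) l) := by
  have : Infinite k := IsAlgClosed.instInfinite
  obtain ⟨S⟩ := hA
  obtain ⟨S', hS'⟩ := exists_completelySplit S
  refine ⟨⟨S', hS', approximationDegree_eq_zero S'⟩, fun T => ⟨approximationDegree_eq_zero T, ?_⟩⟩
  obtain ⟨e, he1, he2⟩ := exists_basis_units T
  exact ⟨e, he2, he1⟩

end Pool.Agent.Results.MP_a8f336_ag.ApproximationDegreeZero
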